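import Pool.Agent.H846Z.ZO.Defs
import Pool.Agent.H846Z.ZO.Main

/-!
For every simple unital C*-algebra `D` with a tracial state, in particular for the Jiang-Su
algebra, there is a simple purely infinite unital C*-algebra `B`, separable when `D` is, which is
`D`-stable and not `O_∞`-stable.

`B` is the spatial tensor product of the reduced C*-algebra of the monoid `F₂ * ℕ` with the
infinite tensor power of `D`.
-/

set_option autoImplicit false

namespace Pool.Agent.Results.MP_37a859_an.ANotOinfStable

open Pool.Agent.H846Z.ZO.Defs

theorem result (D : Type) [CStarAlgebra D] (hD : IsSimple D) (τ : D →ₗ[ℂ] ℂ)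
    (hτ : IsTracialState τ) :
    ∃ (B : Type) (_ : CStarAlgebra B), IsSimple B ∧ IsPurelyInfinite B ∧
      (TopologicalSpace.SeparableSpace D → TopologicalSpace.SeparableSpace B) ∧
      IsStable B D ∧
      ∀ (O : Type) [CStarAlgebra O], IsCuntzInfty O → ¬ IsStable B O :=
  Pool.Agent.H846Z.ZO.main D hD τ hτ

end Pool.Agent.Results.MP_37a859_an.ANotOinfStable
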